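import Pool.Agent.Helper54.R1.Goals

set_option autoImplicit false

/-! # Region R1 of MP_a8383f_co, packet C4 -/

namespace Pool.Agent.Helper15.R1

open Real Pool.Agent.Helper66.Kiss Pool.Agent.Helper54.R1

theorem c4 : Pool.Agent.Helper54.R1.C4_stmt := by
  intro y y2 e hy hy1 h2 he1 he2
  have h2a : -(11 / 50 * y) ≤ y2 + y := (abs_le.1 h2).1
  have h2b : y2 + y ≤ 11 / 50 * y := (abs_le.1 h2).2
  have hyy : y ^ 2 ≤ 1 / 16 * y := by nlinarith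
  have hy2lo : -(61 / 50 * y) ≤ y2 := by linarith
  have hy2hi : y2 ≤ -(39 / 50 * y) := by linarith
  have hy2sq : y2 ^ 2 ≤ 149 / 100 * y ^ 2 := by nlinarith
  have hesq : e ^ 2 ≤ 1 / 20 * y ^ 2 := by nlinarith
  -- the first quotient
  have hden1 : 0 < 1 - y2 ^ 2 := by nlinarith
  have hden2 : 0 < 1 - (-1 / 2 - e) ^ 2 := by nlinarith
  have hq1 : (-1 / 2 - e - y2 / 2) * (-1) / (1 - y2 ^ 2) ≤ 1 / 2 + e + y2 / 2 + 76 / 100 * y ^ 2 := by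
    rw [div_le_iff₀ hden1]
    nlinarith [mul_nonneg hy.le hy.le, sq_nonneg y2, mul_nonneg (sq_nonneg y2) (sq_nonneg y)]
  have hq2 : (y2 - (-1 / 2 - e) / 2) * (3 / 10 * y) / (1 - (-1 / 2 - e) ^ 2) ≤ 1 / 10 * y := by
    rw [div_le_iff₀ hden2]
    have h3 : 3 * y2 + 5 / 2 * e + e ^ 2 ≤ 0 := by nlinarith
    nlinarith [mul_nonneg hy.le (neg_nonneg.2 h3)]
  have hL : 1 + (-y2 - 2 * e) / 2 - 11 / 5 * y ^ 2 ≤
      √2 * rt y2 (-1 / 2 - e) := by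
    unfold rt
    rw [← Real.sqrt_mul (by norm_num)]
    refine Real.le_sqrt_of_sq_le ?_
    have hu1 : 17 / 50 * y ≤ -y2 - 2 * e := by linarith
    have hu2 : -y2 - 2 * e ≤ 73 / 50 * y := by linarith
    have h4 : ((-y2 - 2 * e) / 2 - 11 / 5 * y ^ 2) ^ 2 ≤ 54 / 100 * y ^ 2 := by
      have h5 : 0 ≤ (-y2 - 2 * e) / 2 - 11 / 5 * y ^ 2 := by nlinarith
      have h6 : (-y2 - 2 * e) / 2 - 11 / 5 * y ^ 2 ≤ 73 / 100 * y := by nlinarith
      nlinarith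
    have h7 : y2 ^ 2 + e ^ 2 + y2 * e ≤ 165 / 100 * y ^ 2 := by nlinarith
    nlinarith
  have hs : (0 : ℝ) < √2 := by positivity
  have hs2 : √2 * √2 = 2 := Real.mul_self_sqrt (by norm_num)
  have hR : (1 + y / 5) / √2 * rt y2 (-1 / 2 - e) = (1 + y / 5) / 2 * (√2 * rt y2 (-1 / 2 - e)) := by
    field_simp
    rw [sq, hs2]
  rw [hR]
  unfold nr
  have h8 : (1 + y / 5) / 2 * (1 + (-y2 - 2 * e) / 2 - 11 / 5 * y ^ 2) ≤
      (1 + y / 5) / 2 * (√2 * rt y2 (-1 / 2 - e)) :=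
    mul_le_mul_of_nonneg_left hL (by positivity)
  have h9 : 0 ≤ y / 10 * ((-y2 - 2 * e) / 2 - 11 / 5 * y ^ 2) := by
    refine mul_nonneg (by positivity) ?_
    nlinarith
  nlinarith

end Pool.Agent.Helper15.R1
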